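import Pool.Agent.Helper75.Ch.Defs

set_option autoImplicit false
set_option linter.unusedSectionVars false

namespace Pool.Agent.Helper88.Ch

open Finset Classical Pool.Agent.Helper75.Ch

variable {V : Type*} [Fintype V]

theorem mem_nb {G : SimpleGraph V} {W : Finset V} {y : V} :
    y ∈ nb G W ↔ y ∉ W ∧ ∃ x ∈ W, G.Adj x y := by
  simp [nb]

theorem conn_singleton (G : SimpleGraph V) (v : V) : Conn G {v} := by
  refine ⟨Finset.singleton_nonempty v, ?_⟩
  intro W hW hne _
  exact (Finset.subset_singleton_iff.1 hW).resolve_left hne.ne_empty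

/-- A Conn set with a vertex adjacent to it. -/
theorem conn_insert {G : SimpleGraph V} {T : Finset V} (hT : Conn G T) {u w : V} (hw : w ∈ T)
    (h : G.Adj w u) : Conn G (insert u T) := by
  refine ⟨Finset.insert_nonempty _ _, ?_⟩
  intro W hW hne hcl
  -- W ∩ T is closed in T
  by_cases hWT : (W ∩ T).Nonempty
  · have h1 : W ∩ T = T := by
      apply hT.2 _ Finset.inter_subset_right hWT
      intro x hx y hy hxy
      exact Finset.mem_inter.2 ⟨hcl x (Finset.mem_inter.1 hx).1 y (Finset.mem_insert_of_mem hy) hxy,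
        hy⟩
    have hTW : T ⊆ W := by
      intro x hx
      rw [← h1] at hx
      exact (Finset.mem_inter.1 hx).1
    have huW : u ∈ W := hcl w (hTW hw) u (Finset.mem_insert_self _ _) h
    apply Finset.Subset.antisymm hW
    intro x hx
    rcases Finset.mem_insert.1 hx with rfl | hx
    · exact huW
    · exact hTW hx
  · exfalso
    apply hWT
    obtain ⟨x, hx⟩ := hne
    rcases Finset.mem_insert.1 (hW hx) with rfl | hxT
    · exact ⟨w, Finset.mem_inter.2 ⟨hcl x hx w (Finset.mem_insert_of_mem hw) h.symm, hw⟩⟩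
    · exact ⟨x, Finset.mem_inter.2 ⟨hx, hxT⟩⟩

/-- A union of Conn sets through a common vertex. -/
theorem conn_biUnion {G : SimpleGraph V} {ι : Type*} (I : Finset ι) (P : ι → Finset V) (v : V)
    (hP : ∀ i ∈ I, Conn G (P i)) (hv : ∀ i ∈ I, v ∈ P i) :
    Conn G (insert v (I.biUnion P)) := by
  refine ⟨Finset.insert_nonempty _ _, ?_⟩
  intro W hW hne hcl
  have key : ∀ i ∈ I, (W ∩ P i).Nonempty → P i ⊆ W := by
    intro i hi hne'
    have h1 : W ∩ P i = P i := by
      apply (hP i hi).2 _ Finset.inter_subset_right hne'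
      intro x hx y hy hxy
      refine Finset.mem_inter.2 ⟨hcl x (Finset.mem_inter.1 hx).1 y ?_ hxy, hy⟩
      exact Finset.mem_insert_of_mem (Finset.mem_biUnion.2 ⟨i, hi, hy⟩)
    intro x hx
    rw [← h1] at hx
    exact (Finset.mem_inter.1 hx).1
  have hvW : v ∈ W := by
    obtain ⟨x, hx⟩ := hne
    rcases Finset.mem_insert.1 (hW hx) with rfl | hx'
    · exact hx
    · obtain ⟨i, hi, hxi⟩ := Finset.mem_biUnion.1 hx'
      exact key i hi ⟨x, Finset.mem_inter.2 ⟨hx, hxi⟩⟩ (hv i hi)
  apply Finset.Subset.antisymm hW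
  intro x hx
  rcases Finset.mem_insert.1 hx with rfl | hx'
  · exact hvW
  · obtain ⟨i, hi, hxi⟩ := Finset.mem_biUnion.1 hx'
    exact key i hi ⟨v, Finset.mem_inter.2 ⟨hvW, hv i hi⟩⟩ hxi

/-- union of two meeting Conn sets -/
theorem conn_union {G : SimpleGraph V} {S T : Finset V} (hS : Conn G S) (hT : Conn G T) {z : V}
    (hzS : z ∈ S) (hzT : z ∈ T) : Conn G (S ∪ T) := by
  have h := conn_biUnion (G := G) (Finset.univ : Finset Bool) (fun b => if b then S else T) z
    (by intro b _; cases b <;> simp [hS, hT]) (by intro b _; cases b <;> simp [hzS, hzT])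
  have e : insert z ((Finset.univ : Finset Bool).biUnion (fun b => if b then S else T)) = S ∪ T := by
    ext x
    simp only [Finset.mem_insert, Finset.mem_biUnion, Finset.mem_univ, true_and, Bool.exists_bool,
      Finset.mem_union]
    simp
    constructor
    · rintro (rfl | h | h)
      · exact Or.inl hzS
      · exact Or.inr h
      · exact Or.inl h
    · rintro (h | h)
      · exact Or.inr (Or.inr h)
      · exact Or.inr (Or.inl h)
  rwa [e] at h

/-- Balls inside `R`. -/
noncomputable def ball (G : SimpleGraph V) (R : Finset V) (v : V) : ℕ → Finset V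
  | 0 => {v}
  | r + 1 => ball G R v r ∪ (nb G (ball G R v r) ∩ R)

theorem ball_subset {G : SimpleGraph V} {R : Finset V} {v : V} (hv : v ∈ R) (r : ℕ) :
    ball G R v r ⊆ R := by
  induction r with
  | zero => simpa [ball] using hv
  | succ r ih =>
    intro x hx
    rcases Finset.mem_union.1 hx with h | h
    · exact ih h
    · exact (Finset.mem_inter.1 h).2

theorem ball_path {G : SimpleGraph V} {R : Finset V} {v : V} (hv : v ∈ R) (r : ℕ) :
    ∀ u ∈ ball G R v r, ∃ P : Finset V, P ⊆ R ∧ Conn G P ∧ u ∈ P ∧ v ∈ P ∧ P.card ≤ r + 1 := by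
  induction r with
  | zero =>
    intro u hu
    have : u = v := by simpa [ball] using hu
    subst this
    exact ⟨{u}, by simpa using hv, conn_singleton G u, by simp, by simp, by simp⟩
  | succ r ih =>
    intro u hu
    rcases Finset.mem_union.1 hu with h | h
    · obtain ⟨P, h1, h2, h3, h4, h5⟩ := ih u h
      exact ⟨P, h1, h2, h3, h4, by omega⟩
    · obtain ⟨hn, hR⟩ := Finset.mem_inter.1 h
      obtain ⟨_, w, hw, hadj⟩ := mem_nb.1 hn
      obtain ⟨P, h1, h2, h3, h4, h5⟩ := ih w hw
      refine ⟨insert u P, ?_, conn_insert h2 h3 hadj, by simp, by simp [h4], ?_⟩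
      · intro x hx
        rcases Finset.mem_insert.1 hx with rfl | hx
        · exact hR
        · exact h1 hx
      · exact (Finset.card_insert_le _ _).trans (by omega)

theorem ball_grow {G : SimpleGraph V} {R : Finset V} {v : V} (hv : v ∈ R) (h : ℝ) (hh : 0 < h)
    (c : Finset V → Prop) (hc : ∀ B B' : Finset V, B ⊆ B' → c B' → c B)
    (hexp : ∀ B : Finset V, B.Nonempty → B ⊆ R → c B → (B.card : ℝ) < 2 * h * (nb G B ∩ R).card)
    (r : ℕ) (hr : c (ball G R v r)) :
    (1 + 1 / (2 * h)) ^ r ≤ ((ball G R v r).card : ℝ) := by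
  induction r with
  | zero => simp [ball]
  | succ r ih =>
    have hsub : ball G R v r ⊆ ball G R v (r + 1) := Finset.subset_union_left
    have hr' : c (ball G R v r) := hc _ _ hsub hr
    have ih' := ih hr'
    have hne : (ball G R v r).Nonempty := by
      rw [← Finset.card_pos]
      have : (0 : ℝ) < (ball G R v r).card := lt_of_lt_of_le (by positivity) ih'
      exact_mod_cast this
    have h1 := hexp _ hne (ball_subset hv r) hr'
    have hcard : (ball G R v (r + 1)).card =
        (ball G R v r).card + (nb G (ball G R v r) ∩ R).card := by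
      show (ball G R v r ∪ (nb G (ball G R v r) ∩ R)).card = _
      apply Finset.card_union_of_disjoint
      rw [Finset.disjoint_left]
      intro x hx hx'
      exact (mem_nb.1 (Finset.mem_inter.1 hx').1).1 hx
    rw [hcard]
    push_cast
    rw [pow_succ]
    have h2 : (ball G R v r).card / (2 * h) ≤ ((nb G (ball G R v r) ∩ R).card : ℝ) := by
      rw [div_le_iff₀ (by positivity)]
      linarith
    calc (1 + 1 / (2 * h)) ^ r * (1 + 1 / (2 * h))
        ≤ (ball G R v r).card * (1 + 1 / (2 * h)) :=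
          mul_le_mul_of_nonneg_right ih' (by positivity)
      _ = (ball G R v r).card + (ball G R v r).card / (2 * h) := by ring
      _ ≤ _ := by linarith

/-- Configurations of the Plotkin, Rao and Smith argument. -/
structure Cfg (G : SimpleGraph V) (q s : ℕ) (h : ℝ) (X : Finset V) (F : Finset (Finset V)) :
    Prop where
  conn : ∀ A ∈ F, Conn G A
  disj : ∀ A ∈ F, ∀ B ∈ F, A ≠ B → Disjoint A B
  touch : ∀ A ∈ F, ∀ B ∈ F, A ≠ B → Touch G A B
  size : ∀ A ∈ F, A.card ≤ s
  card_le : F.card ≤ q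
  dX : ∀ A ∈ F, Disjoint A X
  bd : 2 * h * ((nb G X \ F.biUnion id).card : ℝ) ≤ X.card
  small : 4 * X.card ≤ 3 * Fintype.card V

theorem touch_symm {G : SimpleGraph V} {S T : Finset V} (h : Touch G S T) : Touch G T S := by
  obtain ⟨x, hx, y, hy, hxy⟩ := h
  exact ⟨y, hy, x, hx, hxy.symm⟩

theorem prs (G : SimpleGraph V) (q s ρ : ℕ) (h : ℝ) (hh : 1 ≤ h)
    (hexp : ∀ W : Finset V, W.Nonempty → 4 * W.card ≤ 3 * Fintype.card V →
      (W.card : ℝ) ≤ h * (nb G W).card)
    (hρ : (Fintype.card V : ℝ) < (1 + 1 / (2 * h)) ^ ρ)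
    (hs : 1 + q * (2 * ρ + 2) ≤ s)
    (hn : 8 * ((2 * h + 1) * ((q + 1) * s)) < Fintype.card V) :
    ∃ F : Finset (Finset V), F.card = q ∧ (∀ A ∈ F, Conn G A) ∧
      (∀ A ∈ F, ∀ B ∈ F, A ≠ B → Disjoint A B) ∧ (∀ A ∈ F, ∀ B ∈ F, A ≠ B → Touch G A B) := by
  set n := Fintype.card V with hndef
  -- the set of configurations
  set 𝒞 : Finset (Finset V × Finset (Finset V)) :=
    Finset.univ.filter fun p => Cfg G q s h p.1 p.2 with h𝒞
  have hne : 𝒞.Nonempty := by
    refine ⟨(∅, ∅), ?_⟩
    rw [h𝒞, Finset.mem_filter]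
    refine ⟨Finset.mem_univ _, ?_⟩
    constructor <;> simp
    have : nb G (∅ : Finset V) = ∅ := by
      ext x; simp [mem_nb]
    simp [this]
  obtain ⟨⟨X, F⟩, hXF, hmax⟩ := Finset.exists_max_image 𝒞
    (fun p => toLex (p.1.card, p.2.card)) hne
  rw [h𝒞, Finset.mem_filter] at hXF
  have hC : Cfg G q s h X F := hXF.2
  have hmax1 : ∀ X' F', Cfg G q s h X' F' → X'.card ≤ X.card := by
    intro X' F' hC'
    have h1 := hmax (X', F') (by rw [h𝒞, Finset.mem_filter]; exact ⟨Finset.mem_univ _, hC'⟩)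
    rw [Prod.Lex.toLex_le_toLex] at h1
    rcases h1 with h1 | h1
    · exact h1.le
    · exact h1.1.le
  have hmax2 : ∀ F', Cfg G q s h X F' → F'.card ≤ F.card := by
    intro F' hC'
    have h1 := hmax (X, F') (by rw [h𝒞, Finset.mem_filter]; exact ⟨Finset.mem_univ _, hC'⟩)
    rw [Prod.Lex.toLex_le_toLex] at h1
    rcases h1 with h1 | h1
    · exact absurd h1 (lt_irrefl _)
    · exact h1.2
  by_cases hcard : F.card = q
  · exact ⟨F, hcard, hC.conn, hC.disj, hC.touch⟩
  exfalso
  have hlt : F.card < q := lt_of_le_of_ne hC.card_le hcard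
  set U : Finset V := F.biUnion id with hU
  have hUcard : U.card ≤ q * s := by
    calc U.card ≤ ∑ A ∈ F, (id A : Finset V).card := Finset.card_biUnion_le
      _ ≤ ∑ A ∈ F, s := Finset.sum_le_sum (fun A hA => hC.size A hA)
      _ = F.card * s := by simp
      _ ≤ q * s := Nat.mul_le_mul_right _ hC.card_le
  have hUcardR : (U.card : ℝ) ≤ q * s := by exact_mod_cast hUcard
  have hXcard : (X.card : ℝ) ≤ 2 * h * (q * s) := by
    by_cases hX : X.Nonempty
    · have h1 := hexp X hX hC.small
      have h2 : ((nb G X).card : ℝ) ≤ (nb G X \ U).card + U.card := by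
        have : (nb G X).card ≤ (nb G X \ U).card + U.card := by
          calc (nb G X).card ≤ ((nb G X \ U) ∪ U).card := by
                apply Finset.card_le_card
                intro x hx
                by_cases hxU : x ∈ U
                · exact Finset.mem_union_right _ hxU
                · exact Finset.mem_union_left _ (Finset.mem_sdiff.2 ⟨hx, hxU⟩)
            _ ≤ _ := Finset.card_union_le _ _
        exact_mod_cast this
      have h3 := hC.bd
      have h4 : h * ((nb G X).card : ℝ) ≤ h * ((nb G X \ U).card + U.card) :=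
        mul_le_mul_of_nonneg_left h2 (by linarith)
      have h5 : h * (U.card : ℝ) ≤ h * (q * s) := mul_le_mul_of_nonneg_left hUcardR (by linarith)
      nlinarith
    · rw [Finset.not_nonempty_iff_eq_empty] at hX
      rw [hX]
      simp
      positivity
  have hs1 : (1 : ℝ) ≤ s := by
    have : 1 ≤ s := by omega
    exact_mod_cast this
  have hq0 : (0 : ℝ) ≤ q := by positivity
  have hqs0 : (0 : ℝ) ≤ (q : ℝ) * s := by positivity
  -- |X| + |U| small
  have hsmall : 8 * ((X.card : ℝ) + s + U.card) < n := by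
    have : (X.card : ℝ) + s + U.card ≤ (2 * h + 1) * ((q + 1) * s) := by
      nlinarith
    linarith
  have hsmallN : 8 * (X.card + s + U.card) < n := by exact_mod_cast hsmall
  set R : Finset V := Finset.univ \ (X ∪ U) with hR
  have hmemR : ∀ x, x ∈ R ↔ x ∉ X ∧ x ∉ U := by
    intro x; simp [hR]
  have hRne : R.Nonempty := by
    rw [← Finset.card_pos, hR, Finset.card_sdiff_of_subset (Finset.subset_univ _),
      Finset.card_univ]
    have := Finset.card_union_le X U
    omega
  -- (1) every member of F has a neighbour in R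
  have step1 : ∀ A ∈ F, ∃ x ∈ R, ∃ a ∈ A, G.Adj a x := by
    intro A hA
    by_contra hcon
    push Not at hcon
    have hAX : Disjoint A X := hC.dX A hA
    have hmemU : ∀ x, x ∈ U ↔ ∃ B ∈ F, x ∈ B := by intro x; simp [hU]
    have hcfg : Cfg G q s h (X ∪ A) (F.erase A) := by
      refine ⟨?_, ?_, ?_, ?_, ?_, ?_, ?_, ?_⟩
      · intro B hB; exact hC.conn B (Finset.mem_of_mem_erase hB)
      · intro B hB C hC' hne; exact hC.disj B (Finset.mem_of_mem_erase hB) C
          (Finset.mem_of_mem_erase hC') hne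
      · intro B hB C hC' hne; exact hC.touch B (Finset.mem_of_mem_erase hB) C
          (Finset.mem_of_mem_erase hC') hne
      · intro B hB; exact hC.size B (Finset.mem_of_mem_erase hB)
      · exact (Finset.card_le_card (Finset.erase_subset _ _)).trans hC.card_le
      · intro B hB
        rw [Finset.disjoint_union_right]
        exact ⟨hC.dX B (Finset.mem_of_mem_erase hB),
          hC.disj B (Finset.mem_of_mem_erase hB) A hA (Finset.ne_of_mem_erase hB)⟩
      · have hsub : nb G (X ∪ A) \ (F.erase A).biUnion id ⊆ nb G X \ U := by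
          intro y hy
          obtain ⟨hy1, hy2⟩ := Finset.mem_sdiff.1 hy
          obtain ⟨hy3, w, hw, hwy⟩ := mem_nb.1 hy1
          rw [Finset.mem_union, not_or] at hy3
          have hyU : y ∉ U := by
            intro hyU
            obtain ⟨B, hB, hyB⟩ := (hmemU y).1 hyU
            apply hy2
            rw [Finset.mem_biUnion]
            refine ⟨B, Finset.mem_erase.2 ⟨?_, hB⟩, hyB⟩
            rintro rfl
            exact hy3.2 hyB
          have hyR : y ∈ R := (hmemR y).2 ⟨hy3.1, hyU⟩
          rw [Finset.mem_sdiff]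
          refine ⟨mem_nb.2 ⟨hy3.1, ?_⟩, hyU⟩
          rcases Finset.mem_union.1 hw with hw | hw
          · exact ⟨w, hw, hwy⟩
          · exact absurd hwy (hcon y hyR w hw)
        have h1 : ((nb G (X ∪ A) \ (F.erase A).biUnion id).card : ℝ) ≤ (nb G X \ U).card := by
          exact_mod_cast Finset.card_le_card hsub
        have h2 : (X.card : ℝ) ≤ (X ∪ A).card := by
          exact_mod_cast Finset.card_le_card Finset.subset_union_left
        have h3 := hC.bd
        have h4 : 2 * h * ((nb G (X ∪ A) \ (F.erase A).biUnion id).card : ℝ) ≤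
            2 * h * (nb G X \ U).card := mul_le_mul_of_nonneg_left h1 (by linarith)
        linarith
      · have h1 := Finset.card_union_le X A
        have h2 := hC.size A hA
        omega
    have h1 := hmax1 _ _ hcfg
    rw [Finset.card_union_of_disjoint hAX.symm] at h1
    have h2 := Finset.card_pos.2 (hC.conn A hA).1
    omega
  -- (2) expansion inside R
  have step2 : ∀ B : Finset V, B.Nonempty → B ⊆ R → 4 * (X.card + B.card) ≤ 3 * n →
      (B.card : ℝ) < 2 * h * (nb G B ∩ R).card := by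
    intro B hB hBR hcB
    by_contra hcon
    rw [not_lt] at hcon
    have hXB : Disjoint X B := by
      rw [Finset.disjoint_left]
      intro x hx hxB
      exact ((hmemR x).1 (hBR hxB)).1 hx
    have hcfg : Cfg G q s h (X ∪ B) F := by
      refine ⟨hC.conn, hC.disj, hC.touch, hC.size, hC.card_le, ?_, ?_, ?_⟩
      · intro A hA
        rw [Finset.disjoint_union_right]
        refine ⟨hC.dX A hA, ?_⟩
        rw [Finset.disjoint_right]
        intro x hxB hxA
        exact ((hmemR x).1 (hBR hxB)).2 (by simp only [hU, Finset.mem_biUnion]; exact ⟨A, hA, hxA⟩)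
      · have hsub : nb G (X ∪ B) \ U ⊆ (nb G X \ U) ∪ (nb G B ∩ R) := by
          intro y hy
          obtain ⟨hy1, hy2⟩ := Finset.mem_sdiff.1 hy
          obtain ⟨hy3, w, hw, hwy⟩ := mem_nb.1 hy1
          rw [Finset.mem_union, not_or] at hy3
          rcases Finset.mem_union.1 hw with hw | hw
          · exact Finset.mem_union_left _ (Finset.mem_sdiff.2 ⟨mem_nb.2 ⟨hy3.1, w, hw, hwy⟩, hy2⟩)
          · exact Finset.mem_union_right _ (Finset.mem_inter.2 ⟨mem_nb.2 ⟨hy3.2, w, hw, hwy⟩,
              (hmemR y).2 ⟨hy3.1, hy2⟩⟩)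
        have h1 : ((nb G (X ∪ B) \ U).card : ℝ) ≤ (nb G X \ U).card + (nb G B ∩ R).card := by
          exact_mod_cast (Finset.card_le_card hsub).trans (Finset.card_union_le _ _)
        have h2 : ((X ∪ B).card : ℝ) = X.card + B.card := by
          exact_mod_cast Finset.card_union_of_disjoint hXB
        have h3 := hC.bd
        have h4 : 2 * h * ((nb G (X ∪ B) \ U).card : ℝ) ≤
            2 * h * ((nb G X \ U).card + (nb G B ∩ R).card) :=
          mul_le_mul_of_nonneg_left h1 (by linarith)
        rw [h2]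
        have h5 : (2 * h * ((nb G X \ F.biUnion id).card : ℝ)) = 2 * h * ((nb G X \ U).card) := rfl
        show 2 * h * ((nb G (X ∪ B) \ U).card : ℝ) ≤ _
        nlinarith
      · rw [Finset.card_union_of_disjoint hXB]
        exact hcB
    have h1 := hmax1 _ _ hcfg
    rw [Finset.card_union_of_disjoint hXB] at h1
    have h2 := Finset.card_pos.2 hB
    omega
  -- (3) balls are large
  have step3 : ∀ v ∈ R, n < 2 * (ball G R v ρ).card := by
    intro v hv
    by_contra hcon
    have hc : 4 * (X.card + (ball G R v ρ).card) ≤ 3 * n := by omega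
    have h1 := ball_grow (G := G) hv h (by linarith) (fun B => 4 * (X.card + B.card) ≤ 3 * n)
      (by intro B B' hBB' h'
          have := Finset.card_le_card hBB'
          omega)
      (fun B hB hBR hcB => step2 B hB hBR hcB) ρ hc
    have h2 : ((ball G R v ρ).card : ℝ) ≤ n := by
      exact_mod_cast Finset.card_le_univ _
    linarith
  have step4 : ∀ v ∈ R, ∀ u ∈ R, ∃ P : Finset V, P ⊆ R ∧ Conn G P ∧ u ∈ P ∧ v ∈ P ∧
      P.card ≤ 2 * ρ + 2 := by
    intro v hv u hu
    have h1 := step3 v hv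
    have h2 := step3 u hu
    have hnd : ¬ Disjoint (ball G R v ρ) (ball G R u ρ) := by
      intro hd
      have h3 := Finset.card_union_of_disjoint hd
      have h4 : (ball G R v ρ ∪ ball G R u ρ).card ≤ n := Finset.card_le_univ _
      omega
    rw [Finset.not_disjoint_iff] at hnd
    obtain ⟨z, hz1, hz2⟩ := hnd
    obtain ⟨P, hP1, hP2, hP3, hP4, hP5⟩ := ball_path hv ρ z hz1
    obtain ⟨Q, hQ1, hQ2, hQ3, hQ4, hQ5⟩ := ball_path hu ρ z hz2
    refine ⟨P ∪ Q, Finset.union_subset hP1 hQ1, conn_union hP2 hQ2 hP3 hQ3,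
      Finset.mem_union_right _ hQ4, Finset.mem_union_left _ hP4, ?_⟩
    have := Finset.card_union_le P Q
    omega
  -- build the new member
  obtain ⟨v, hv⟩ := hRne
  have hch : ∀ A : Finset V, ∃ P : Finset V, A ∈ F → (P ⊆ R ∧ Conn G P ∧ v ∈ P ∧
      P.card ≤ 2 * ρ + 2 ∧ ∃ x ∈ P, ∃ a ∈ A, G.Adj a x) := by
    intro A
    by_cases hA : A ∈ F
    · obtain ⟨x, hx, a, ha, hax⟩ := step1 A hA
      obtain ⟨P, hP1, hP2, hP3, hP4, hP5⟩ := step4 v hv x hx
      exact ⟨P, fun _ => ⟨hP1, hP2, hP4, hP5, x, hP3, a, ha, hax⟩⟩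
    · exact ⟨∅, fun h => absurd h hA⟩
  choose P hP using hch
  set N : Finset V := insert v (F.biUnion P) with hN
  have hNR : N ⊆ R := by
    intro x hx
    rcases Finset.mem_insert.1 hx with rfl | hx
    · exact hv
    · obtain ⟨A, hA, hxA⟩ := Finset.mem_biUnion.1 hx
      exact (hP A hA).1 hxA
  have hNconn : Conn G N := conn_biUnion F P v (fun A hA => (hP A hA).2.1)
    (fun A hA => (hP A hA).2.2.1)
  have hNcard : N.card ≤ s := by
    have h1 : (F.biUnion P).card ≤ F.card * (2 * ρ + 2) := by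
      calc (F.biUnion P).card ≤ ∑ A ∈ F, (P A).card := Finset.card_biUnion_le
        _ ≤ ∑ A ∈ F, (2 * ρ + 2) := Finset.sum_le_sum (fun A hA => (hP A hA).2.2.2.1)
        _ = F.card * (2 * ρ + 2) := by simp
    have h2 : F.card * (2 * ρ + 2) ≤ q * (2 * ρ + 2) := Nat.mul_le_mul_right _ hC.card_le
    have h3 := Finset.card_insert_le v (F.biUnion P)
    have h4 : N.card ≤ (F.biUnion P).card + 1 := h3
    omega
  have hNdisj : ∀ A ∈ F, Disjoint A N := by
    intro A hA
    rw [Finset.disjoint_right]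
    intro x hxN hxA
    exact ((hmemR x).1 (hNR hxN)).2 (by simp only [hU, Finset.mem_biUnion]; exact ⟨A, hA, hxA⟩)
  have hNF : N ∉ F := by
    intro hNF
    have := hNdisj N hNF
    rw [disjoint_self] at this
    exact hNconn.1.ne_empty this
  have hNtouch : ∀ A ∈ F, Touch G A N := by
    intro A hA
    obtain ⟨x, hx, a, ha, hax⟩ := (hP A hA).2.2.2.2
    exact ⟨a, ha, x, Finset.mem_insert_of_mem (Finset.mem_biUnion.2 ⟨A, hA, hx⟩), hax⟩
  have hcfg : Cfg G q s h X (insert N F) := by
    refine ⟨?_, ?_, ?_, ?_, ?_, ?_, ?_, hC.small⟩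
    · intro A hA
      rcases Finset.mem_insert.1 hA with rfl | hA
      · exact hNconn
      · exact hC.conn A hA
    · intro A hA B hB hne
      rcases Finset.mem_insert.1 hA with hA' | hA' <;> rcases Finset.mem_insert.1 hB with hB' | hB'
      · exact absurd (hA'.trans hB'.symm) hne
      · rw [hA']; exact (hNdisj B hB').symm
      · rw [hB']; exact hNdisj A hA'
      · exact hC.disj A hA' B hB' hne
    · intro A hA B hB hne
      rcases Finset.mem_insert.1 hA with hA' | hA' <;> rcases Finset.mem_insert.1 hB with hB' | hB'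
      · exact absurd (hA'.trans hB'.symm) hne
      · rw [hA']; exact touch_symm (hNtouch B hB')
      · rw [hB']; exact hNtouch A hA'
      · exact hC.touch A hA' B hB' hne
    · intro A hA
      rcases Finset.mem_insert.1 hA with rfl | hA
      · exact hNcard
      · exact hC.size A hA
    · rw [Finset.card_insert_of_notMem hNF]
      omega
    · intro A hA
      rcases Finset.mem_insert.1 hA with hA' | hA'
      · rw [hA', Finset.disjoint_left]
        intro x hx
        exact ((hmemR x).1 (hNR hx)).1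
      · exact hC.dX A hA'
    · have hsub : nb G X \ (insert N F).biUnion id ⊆ nb G X \ U := by
        apply Finset.sdiff_subset_sdiff (Finset.Subset.refl _)
        rw [hU]
        exact Finset.biUnion_subset_biUnion_of_subset_left _ (Finset.subset_insert _ _)
      have h1 : ((nb G X \ (insert N F).biUnion id).card : ℝ) ≤ (nb G X \ U).card := by
        exact_mod_cast Finset.card_le_card hsub
      have h2 := hC.bd
      have h4 : 2 * h * ((nb G X \ (insert N F).biUnion id).card : ℝ) ≤
          2 * h * (nb G X \ U).card := mul_le_mul_of_nonneg_left h1 (by linarith)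
      linarith
  have h1 := hmax2 _ hcfg
  rw [Finset.card_insert_of_notMem hNF] at h1
  omega

/-- numeric part: choice of `ρ`, `s` for large `n` -/
theorem numeric (q : ℕ) : ∃ n0 : ℕ, 1 ≤ n0 ∧ ∀ n : ℕ, n0 ≤ n →
    ∃ ρ s : ℕ, (n : ℝ) < (1 + 1 / (2 * (18 * (1 + Real.log n) ^ 2))) ^ ρ ∧
      1 + q * (2 * ρ + 2) ≤ s ∧
      8 * ((2 * (18 * (1 + Real.log n) ^ 2) + 1) * ((q + 1) * s)) < (n : ℝ) := by
  -- growth comparison
  have hlo : (fun x : ℝ => Real.log x ^ 5) =o[Filter.atTop] (fun x => x) :=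
    Real.isLittleO_pow_log_id_atTop
  have hK : (0 : ℝ) < 66304 * ((q : ℝ) + 1) ^ 2 * 32 + 1 := by positivity
  have hev := hlo.def (c := 1 / (66304 * ((q : ℝ) + 1) ^ 2 * 32 + 1)) (by positivity)
  rw [Filter.eventually_atTop] at hev
  obtain ⟨x0, hx0⟩ := hev
  obtain ⟨m, hm⟩ := exists_nat_ge x0
  refine ⟨max m 3, by omega, ?_⟩
  intro n hn
  have hnm : m ≤ n := le_trans (le_max_left _ _) hn
  have hn3 : 3 ≤ n := le_trans (le_max_right _ _) hn
  have hn3R : (3 : ℝ) ≤ n := by exact_mod_cast hn3
  have hn0 : (0 : ℝ) < n := by linarith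
  have hlog1 : 1 ≤ Real.log n := by
    rw [Real.le_log_iff_exp_le hn0]
    have := Real.exp_one_lt_d9
    linarith
  set L : ℝ := 1 + Real.log n with hL
  have hL1 : 1 ≤ L := by linarith
  have hL2 : L ≤ 2 * Real.log n := by linarith
  have hbig := hx0 n (hm.trans (by exact_mod_cast hnm))
  rw [Real.norm_of_nonneg (by positivity), Real.norm_of_nonneg hn0.le] at hbig
  have hbig2 : 66304 * ((q : ℝ) + 1) ^ 2 * L ^ 5 < n := by
    have h1 : L ^ 5 ≤ (2 * Real.log n) ^ 5 := pow_le_pow_left₀ (by linarith) hL2 5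
    have h2 : (2 * Real.log n) ^ 5 = 32 * Real.log n ^ 5 := by ring
    rw [h2] at h1
    have h3 : (66304 * ((q : ℝ) + 1) ^ 2 * 32 + 1) * Real.log n ^ 5 ≤ n := by
      have := mul_le_mul_of_nonneg_left hbig hK.le
      calc _ ≤ _ := this
        _ = n := by field_simp
    have h4 : 0 < Real.log n ^ 5 := by positivity
    calc 66304 * ((q : ℝ) + 1) ^ 2 * L ^ 5 ≤ 66304 * ((q : ℝ) + 1) ^ 2 * (32 * Real.log n ^ 5) :=
          mul_le_mul_of_nonneg_left h1 (by positivity)
      _ = 66304 * ((q : ℝ) + 1) ^ 2 * 32 * Real.log n ^ 5 := by ring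
      _ < (66304 * ((q : ℝ) + 1) ^ 2 * 32 + 1) * Real.log n ^ 5 := by linarith
      _ ≤ n := h3
  set H : ℝ := 2 * (18 * L ^ 2) with hH
  have hHL : H = 36 * L ^ 2 := by rw [hH]; ring
  have hL2' : 1 ≤ L ^ 2 := one_le_pow₀ hL1
  have hH1 : 1 ≤ H := by rw [hHL]; linarith
  set c : ℕ := Nat.ceil H with hc
  have hcH : H ≤ c := Nat.le_ceil H
  have hcH' : (c : ℝ) ≤ 37 * L ^ 2 := by
    have := Nat.ceil_lt_add_one (by linarith : 0 ≤ H)
    rw [← hc] at this
    linarith
  set l : ℕ := Nat.log 2 n + 1 with hl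
  have hnl : n < 2 ^ l := Nat.lt_pow_succ_log_self (by norm_num) n
  have hlL : (l : ℝ) ≤ 3 * L := by
    have h1 : (2 : ℝ) ^ (Nat.log 2 n) ≤ n := by
      exact_mod_cast Nat.pow_log_le_self 2 (by omega)
    have h2 : (Nat.log 2 n : ℝ) * Real.log 2 ≤ Real.log n := by
      rw [← Real.log_pow]
      exact Real.log_le_log (by positivity) h1
    have h3 : (1 : ℝ) / 2 ≤ Real.log 2 := by have := Real.log_two_gt_d9; linarith
    have h4 : (Nat.log 2 n : ℝ) * (1 / 2) ≤ Real.log n :=
      (mul_le_mul_of_nonneg_left h3 (by positivity)).trans h2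
    rw [hl]
    push_cast
    linarith
  refine ⟨c * l, 1 + q * (2 * (c * l) + 2), ?_, le_refl _, ?_⟩
  · -- Bernoulli
    have h1 : (2 : ℝ) ≤ (1 + 1 / H) ^ c := by
      have hb := one_add_mul_le_pow (a := 1 / H) (by
        have : 0 ≤ 1 / H := by positivity
        linarith) c
      have : (1 : ℝ) ≤ c * (1 / H) := by
        rw [mul_one_div, le_div_iff₀ (by linarith)]
        linarith
      linarith
    calc (n : ℝ) < 2 ^ l := by exact_mod_cast hnl
      _ ≤ ((1 + 1 / H) ^ c) ^ l := pow_le_pow_left₀ (by norm_num) h1 l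
      _ = (1 + 1 / H) ^ (c * l) := by rw [pow_mul]
  · have hq0 : (0 : ℝ) ≤ q := by positivity
    have hcl : (c : ℝ) * l ≤ 111 * L ^ 3 := by
      calc (c : ℝ) * l ≤ (37 * L ^ 2) * (3 * L) :=
            mul_le_mul hcH' hlL (by positivity) (by positivity)
        _ = 111 * L ^ 3 := by ring
    have hL3 : 1 ≤ L ^ 3 := one_le_pow₀ hL1
    have hs : ((1 + q * (2 * (c * l) + 2) : ℕ) : ℝ) ≤ (q + 1) * (224 * L ^ 3) := by
      push_cast
      have h1 : 2 * ((c : ℝ) * l) + 2 ≤ 224 * L ^ 3 := by linarith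
      have h2 : (q : ℝ) * (2 * ((c : ℝ) * l) + 2) ≤ q * (224 * L ^ 3) :=
        mul_le_mul_of_nonneg_left h1 hq0
      linarith
    have hH2 : H + 1 ≤ 37 * L ^ 2 := by linarith
    calc 8 * ((H + 1) * ((q + 1) * ((1 + q * (2 * (c * l) + 2) : ℕ) : ℝ)))
        ≤ 8 * ((37 * L ^ 2) * ((q + 1) * ((q + 1) * (224 * L ^ 3)))) := by
          apply mul_le_mul_of_nonneg_left _ (by norm_num)
          apply mul_le_mul hH2 _ (by positivity) (by positivity)
          exact mul_le_mul_of_nonneg_left hs (by positivity)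
      _ = 66304 * ((q : ℝ) + 1) ^ 2 * L ^ 5 := by ring
      _ < n := hbig2

/-- (T3) `K_q` minor in a graph with vertex expansion `1/polylog` (Plotkin, Rao and Smith). -/
theorem kq_model (q : ℕ) : ∃ n0 : ℕ, ∀ {V : Type} [Fintype V] (G : SimpleGraph V),
    n0 ≤ Fintype.card V →
    (∀ W : Finset V, W.Nonempty → 4 * W.card ≤ 3 * Fintype.card V →
      (W.card : ℝ) ≤ 18 * (1 + Real.log (Fintype.card V)) ^ 2 * (nb G W).card) →
    ∃ A : Fin q → Finset V, (∀ i, Conn G (A i)) ∧ (∀ i j, i ≠ j → Disjoint (A i) (A j)) ∧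
      (∀ i j, i ≠ j → Touch G (A i) (A j)) := by
  obtain ⟨n0, h1, hn0⟩ := numeric q
  refine ⟨n0, ?_⟩
  intro V _ G hV hexp
  obtain ⟨ρ, s, hρ, hs, hn⟩ := hn0 (Fintype.card V) hV
  have hlog : 0 ≤ Real.log (Fintype.card V) := by
    apply Real.log_nonneg
    have : 1 ≤ Fintype.card V := le_trans h1 hV
    exact_mod_cast this
  obtain ⟨F, hF, hconn, hdisj, htouch⟩ := prs G q s ρ (18 * (1 + Real.log (Fintype.card V)) ^ 2)
    (by nlinarith) hexp hρ hs hn
  have e := (F.equivFinOfCardEq hF).symm
  refine ⟨fun i => (e i : Finset V), fun i => hconn _ (e i).2, ?_, ?_⟩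
  · intro i j hij
    exact hdisj _ (e i).2 _ (e j).2 (fun h => hij (e.injective (Subtype.ext h)))
  · intro i j hij
    exact htouch _ (e i).2 _ (e j).2 (fun h => hij (e.injective (Subtype.ext h)))

end Pool.Agent.Helper88.Ch
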